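import Pool.Agent.W443.J6.Stms

/-! Project J6, part LT: blowing up and translation in the local problem. -/

set_option autoImplicit false

open MvPolynomial Pool.Agent.H938R2.JC Pool.Agent.W443.J5 Pool.Agent.W443.J6

namespace Pool.Agent.W119.J6

universe u

section

variable {k : Type u} [Field k]

/-- the blown up polynomial -/
noncomputable def bl (s A : ℕ) (F : MvPolynomial (Fin 2) k) : MvPolynomial (Fin 2) k :=
  ∑ m ∈ F.support, monomial (e (s * m 0 + m 1 - A) (m 1)) (coeff m F)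

theorem mono_eq (i j : ℕ) (c : k) :
    (monomial (e i j) c : MvPolynomial (Fin 2) k) = C c * X 0 ^ i * X 1 ^ j := by
  rw [X_pow_eq_monomial, X_pow_eq_monomial, C_mul_monomial, monomial_mul, e]
  simp

theorem sum_eq (F : MvPolynomial (Fin 2) k) :
    F = ∑ m ∈ F.support, C (coeff m F) * X 0 ^ (m 0) * X 1 ^ (m 1) := by
  conv_lhs => rw [F.as_sum]
  refine Finset.sum_congr rfl fun m _ => ?_
  rw [← mono_eq, ← eq_e]

theorem dpow (n : ℕ) : X 0 * pderiv 0 ((X 0 : MvPolynomial (Fin 2) k) ^ n) =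
    C (n : k) * X 0 ^ n := by
  rcases n with _ | n
  · simp
  · rw [Derivation.leibniz_pow, pderiv_X_self, Nat.add_sub_cancel, smul_eq_mul, mul_one,
      nsmul_eq_mul, pow_succ, map_natCast]
    ring

theorem dpow1 (n : ℕ) : pderiv 1 ((X 0 : MvPolynomial (Fin 2) k) ^ n) = 0 := by
  rw [Derivation.leibniz_pow, pderiv_X_of_ne (by decide)]
  simp

theorem aeval_eq {R : Type*} [CommRing R] [Algebra k R] (x y : R) (F : MvPolynomial (Fin 2) k) :
    aeval ![x, y] F = ∑ m ∈ F.support, algebraMap k R (coeff m F) * x ^ (m 0) * y ^ (m 1) := by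
  conv_lhs => rw [sum_eq F]
  rw [map_sum]
  refine Finset.sum_congr rfl fun m _ => ?_
  rw [map_mul, map_mul, map_pow, map_pow, aeval_X, aeval_X, algHom_C]
  simp

theorem bl_eq (s A : ℕ) (F : MvPolynomial (Fin 2) k)
    (hF : ∀ m, coeff m F ≠ 0 → A ≤ s * m 0 + m 1) :
    aeval ![(X 0 : MvPolynomial (Fin 2) k) ^ s, X 0 * X 1] F = X 0 ^ A * bl s A F := by
  rw [aeval_eq, bl, Finset.mul_sum]
  refine Finset.sum_congr rfl fun m hm => ?_
  rw [mono_eq]
  have h1 := hF m (mem_support_iff.1 hm)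
  obtain ⟨t, ht⟩ := Nat.exists_eq_add_of_le h1
  have h2 : s * m 0 + m 1 - A = t := by omega
  rw [h2]
  have h3 : (X 0 : MvPolynomial (Fin 2) k) ^ (s * m 0 + m 1) = X 0 ^ (A + t) := by rw [ht]
  rw [pow_add, pow_add, pow_mul] at h3
  rw [mul_pow, algebraMap_eq]
  linear_combination (C (coeff m F) * X 1 ^ (m 1)) * h3

theorem ev0_bl (s A : ℕ) (F : MvPolynomial (Fin 2) k)
    (hF : ∀ m, coeff m F ≠ 0 → A ≤ s * m 0 + m 1) :
    ev0 (bl s A F) = dh s 1 A F := by
  unfold ev0 dh part bl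
  rw [map_sum, map_sum, Finset.sum_filter]
  refine Finset.sum_congr rfl fun m hm => ?_
  have h1 := hF m (mem_support_iff.1 hm)
  rw [mono_eq]
  split_ifs with h
  · have h2 : s * m 0 + m 1 - A = 0 := by
      have : s * m 0 + m 1 = A := by
        zify
        linarith
      omega
    rw [h2]
    conv_rhs => rw [eq_e m, mono_eq]
    simp only [map_mul, map_pow, aeval_X, algHom_C, Matrix.cons_val_zero, Matrix.cons_val_one,
      pow_zero, one_pow, ← eq_e m, map_one]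
  · have h2 : s * m 0 + m 1 - A ≠ 0 := by
      intro h0
      apply h
      have : s * m 0 + m 1 = A := by omega
      rw [← this]
      push_cast
      ring
    simp only [map_mul, map_pow, aeval_X, algHom_C, Matrix.cons_val_zero, zero_pow h2,
      mul_zero, zero_mul]

theorem blow (F G : MvPolynomial (Fin 2) k) (a b s N : ℕ) (c : k)
    (hB : BB (3 * a) (3 * b) F G = C c * X 0 ^ N)
    (hF : ∀ m, coeff m F ≠ 0 → 2 * a ≤ s * m 0 + m 1)
    (hG : ∀ m, coeff m G ≠ 0 → 2 * b ≤ s * m 0 + m 1) (D E : ℤ) (hD : D = 3 * a * s - 2 * a)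
    (hE : E = 3 * b * s - 2 * b) :
    X 0 ^ (2 * (a + b)) * BB D E (bl s (2 * a) F) (bl s (2 * b) G) =
      C (s * c) * X 0 ^ (s * N + 1) := by
  set F' := bl s (2 * a) F with hF'
  set G' := bl s (2 * b) G with hG'
  set σ : Fin 2 → MvPolynomial (Fin 2) k := ![X 0 ^ s, X 0 * X 1] with hσ
  have h1 : aeval σ F = X 0 ^ (2 * a) * F' := bl_eq s (2 * a) F hF
  have h2 : aeval σ G = X 0 ^ (2 * b) * G' := bl_eq s (2 * b) G hG
  have hJ := J_aeval σ F G
  have d1 : ∀ f : MvPolynomial (Fin 2) k, pderiv 1 (aeval σ f) = aeval σ (pderiv 1 f) * X 0 := by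
    intro f
    rw [Pool.Agent.H922R2.deriv_aeval (pderiv 1) σ f]
    simp [hσ, Fin.sum_univ_two, Derivation.leibniz_pow, pderiv_X]
  have hJσ : J (σ 0) (σ 1) = C (s : k) * X 0 ^ s := by
    unfold J
    rw [← dpow s]
    have a1 : σ 0 = X 0 ^ s := by simp [hσ]
    have a2 : σ 1 = X 0 * X 1 := by simp [hσ]
    rw [a1, a2, dpow1]
    simp only [Derivation.leibniz, smul_eq_mul, pderiv_X_self, pderiv_X_of_ne (show (0 : Fin 2) ≠ 1 by decide)]
    ring
  have e1 : X 0 ^ (2 * a) * pderiv 1 F' = aeval σ (pderiv 1 F) * X 0 := by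
    rw [← d1, h1]
    simp [Derivation.leibniz_pow, pderiv_X]
  have e2 : X 0 ^ (2 * b) * pderiv 1 G' = aeval σ (pderiv 1 G) * X 0 := by
    rw [← d1, h2]
    simp [Derivation.leibniz_pow, pderiv_X]
  have e3 : X 0 * J (aeval σ F) (aeval σ G) = X 0 ^ (2 * a) * X 0 ^ (2 * b) *
      (X 0 * J F' G' + C (2 * a : k) * F' * pderiv 1 G' - C (2 * b : k) * G' * pderiv 1 F') := by
    rw [h1, h2]
    unfold J
    simp only [Derivation.leibniz, smul_eq_mul, dpow1, mul_zero, add_zero]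
    have q1 := dpow (k := k) (2 * a)
    have q2 := dpow (k := k) (2 * b)
    push_cast at q1 q2
    linear_combination (X 0 ^ (2 * b) * F' * pderiv 1 G') * q1 -
      (X 0 ^ (2 * a) * G' * pderiv 1 F') * q2
  have hB' := congrArg (aeval σ) hB
  unfold BB at hB'
  simp only [map_add, map_sub, map_mul, algHom_C, map_pow, algebraMap_eq, aeval_X] at hB'
  have hσ0 : σ 0 = X 0 ^ s := by simp [hσ]
  rw [hσ0] at hB'
  rw [hJσ] at hJ
  unfold BB
  subst hD hE
  rw [h1, h2] at hB'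
  rw [hJ] at e3
  have hp1 : (X 0 : MvPolynomial (Fin 2) k) ^ (2 * (a + b)) = X 0 ^ (2 * a) * X 0 ^ (2 * b) := by
    rw [← pow_add, mul_add]
  have hp2 : (X 0 : MvPolynomial (Fin 2) k) ^ (s * N + 1) = (X 0 ^ s) ^ N * X 0 := by
    rw [pow_succ, pow_mul]
  rw [hp1, hp2]
  push_cast at hB' ⊢
  simp only [map_mul, map_sub, map_natCast, map_ofNat] at hB' e3 ⊢
  linear_combination ((s : MvPolynomial (Fin 2) k) * X 0) * hB' - e3 -
    (3 * a * s) * X 0 ^ (2 * a) * F' * e2 + (3 * b * s) * X 0 ^ (2 * b) * G' * e1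

/-- the translation -/
noncomputable def tr (q : k) : Fin 2 → MvPolynomial (Fin 2) k := ![X 0, X 1 - C q * X 0]

theorem tr_hom (q c : k) (i j : ℕ) :
    (C c * X 0 ^ i * (X 1 - C q * X 0) ^ j : MvPolynomial (Fin 2) k).IsHomogeneous (i + j) := by
  have h1 : (X 1 - C q * X 0 : MvPolynomial (Fin 2) k).IsHomogeneous 1 := by
    refine (isHomogeneous_X k 1).sub ?_
    have := (isHomogeneous_C (Fin 2) q).mul (isHomogeneous_X k (0 : Fin 2))
    rwa [zero_add] at this
  have h2 := (((isHomogeneous_C (Fin 2) c).mul ((isHomogeneous_X k (0 : Fin 2)).pow i)).mul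
    (h1.pow j))
  rwa [zero_add, one_mul, one_mul] at h2

theorem tr_coeff (q c : k) (i j : ℕ) (m : Fin 2 →₀ ℕ)
    (h : coeff m (C c * X 0 ^ i * (X 1 - C q * X 0) ^ j : MvPolynomial (Fin 2) k) ≠ 0) :
    m 0 + m 1 = i + j := by
  have h1 : m.degree = i + j := by
    by_contra h2
    exact h ((tr_hom q c i j).coeff_eq_zero h2)
  rw [← h1, Finsupp.degree_eq_sum, Fin.sum_univ_two]

theorem part_coeff (w0 w1 d : ℤ) (f : MvPolynomial (Fin 2) k) (m : Fin 2 →₀ ℕ) :
    coeff m (part w0 w1 d f) = if w0 * (m 0 : ℤ) + w1 * (m 1 : ℤ) = d then coeff m f else 0 := by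
  unfold part
  rw [coeff_sum]
  simp only [coeff_monomial, Finset.sum_ite_eq', Finset.mem_filter, mem_support_iff]
  by_cases h : w0 * (m 0 : ℤ) + w1 * (m 1 : ℤ) = d
  · by_cases h2 : coeff m f = 0
    · simp [h2]
    · simp [h, h2]
  · simp [h]

theorem aeval_tr (q : k) (F : MvPolynomial (Fin 2) k) :
    aeval (tr q) F = ∑ m ∈ F.support, C (coeff m F) * X 0 ^ (m 0) * (X 1 - C q * X 0) ^ (m 1) := by
  unfold tr
  rw [aeval_eq]
  rfl

theorem part_tr (q : k) (d : ℤ) (F : MvPolynomial (Fin 2) k) :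
    part 1 1 d (aeval (tr q) F) = aeval (tr q) (part 1 1 d F) := by
  have h1 : aeval (tr q) (part 1 1 d F) = ∑ r ∈ F.support,
      if 1 * (r 0 : ℤ) + 1 * (r 1 : ℤ) = d then
        C (coeff r F) * X 0 ^ (r 0) * (X 1 - C q * X 0) ^ (r 1) else 0 := by
    unfold part
    rw [map_sum, Finset.sum_filter]
    refine Finset.sum_congr rfl fun r _ => ?_
    split_ifs with h
    · conv_lhs => rw [eq_e r, mono_eq]
      simp only [map_mul, map_pow, aeval_X, algHom_C, tr, Matrix.cons_val_zero,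
        Matrix.cons_val_one, ← eq_e r, algebraMap_eq]
    · rfl
  rw [h1]
  ext m
  rw [part_coeff, aeval_tr, coeff_sum, coeff_sum]
  have h2 : ∀ r ∈ F.support, (if 1 * (m 0 : ℤ) + 1 * (m 1 : ℤ) = d then
      coeff m (C (coeff r F) * X 0 ^ (r 0) * (X 1 - C q * X 0) ^ (r 1) : MvPolynomial (Fin 2) k)
        else 0) = coeff m (if 1 * (r 0 : ℤ) + 1 * (r 1 : ℤ) = d then
        C (coeff r F) * X 0 ^ (r 0) * (X 1 - C q * X 0) ^ (r 1) else 0) := by
    intro r _
    by_cases h0 : coeff m (C (coeff r F) * X 0 ^ (r 0) * (X 1 - C q * X 0) ^ (r 1) :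
        MvPolynomial (Fin 2) k) = 0
    · rw [h0]
      split_ifs <;> simp [h0]
    · have h3 := tr_coeff _ _ _ _ _ h0
      have h4 : 1 * (m 0 : ℤ) + 1 * (m 1 : ℤ) = 1 * (r 0 : ℤ) + 1 * (r 1 : ℤ) := by
        have : (m 0 : ℤ) + (m 1 : ℤ) = (r 0 : ℤ) + (r 1 : ℤ) := by exact_mod_cast h3
        linarith
      rw [h4]
      split_ifs <;> simp
  rw [← Finset.sum_congr rfl h2]
  split_ifs with h
  · rfl
  · simp

theorem ev0_tr (q : k) (F : MvPolynomial (Fin 2) k) : ev0 (aeval (tr q) F) = ev0 F := by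
  unfold ev0
  rw [aeval_tr, aeval_eq 0 Polynomial.X F, map_sum]
  refine Finset.sum_congr rfl fun m _ => ?_
  simp only [map_mul, map_pow, map_sub, aeval_X, algHom_C, Matrix.cons_val_zero,
    Matrix.cons_val_one, mul_zero, sub_zero]

theorem dh_tr (q : k) (d : ℤ) (F : MvPolynomial (Fin 2) k) :
    dh 1 1 d (aeval (tr q) F) = (dh 1 1 d F).comp (Polynomial.X - Polynomial.C q) := by
  unfold dh
  rw [part_tr, aeval_tr, aeval_eq 1 Polynomial.X (part 1 1 d F), map_sum,
    Polynomial.sum_comp]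
  refine Finset.sum_congr rfl fun m _ => ?_
  simp only [map_mul, map_pow, map_sub, aeval_X, algHom_C, Matrix.cons_val_zero,
    Matrix.cons_val_one, Polynomial.mul_comp, Polynomial.pow_comp, Polynomial.X_comp,
    Polynomial.algebraMap_eq, Polynomial.C_comp, Polynomial.one_comp, mul_one]

theorem tr_supp (q : k) (A : ℕ) (F : MvPolynomial (Fin 2) k)
    (hF : ∀ m, coeff m F ≠ 0 → A ≤ m 0 + m 1) :
    ∀ m, coeff m (aeval (tr q) F) ≠ 0 → A ≤ m 0 + m 1 := by
  intro m hm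
  rw [aeval_tr, coeff_sum] at hm
  obtain ⟨r, hr, hr2⟩ := Finset.exists_ne_zero_of_sum_ne_zero hm
  rw [tr_coeff _ _ _ _ _ hr2]
  exact hF r (mem_support_iff.1 hr)

theorem BB_tr (q : k) (D E : ℤ) (F G : MvPolynomial (Fin 2) k) :
    BB D E (aeval (tr q) F) (aeval (tr q) G) = aeval (tr q) (BB D E F G) := by
  have hJ := J_aeval (tr q) F G
  have d1 : ∀ f : MvPolynomial (Fin 2) k,
      pderiv 1 (aeval (tr q) f) = aeval (tr q) (pderiv 1 f) := by
    intro f
    rw [Pool.Agent.H922R2.deriv_aeval (pderiv 1) (tr q) f, Fin.sum_univ_two]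
    simp [tr, pderiv_X]
  have hJσ : J (tr q 0) (tr q 1) = 1 := by
    unfold J tr
    simp [pderiv_X]
  rw [hJσ, mul_one] at hJ
  unfold BB
  rw [hJ, d1, d1]
  simp only [map_add, map_sub, map_mul, algHom_C, algebraMap_eq, aeval_X]
  simp [tr]

theorem comp_sq [CharZero k] (κ p r : k) (a : ℕ) (h : p ^ 2 = 4 * r) :
    (Polynomial.C κ * (Polynomial.X ^ 2 + Polynomial.C p * Polynomial.X + Polynomial.C r) ^ a).comp
      (Polynomial.X - Polynomial.C (p / 2)) = Polynomial.C κ * Polynomial.X ^ (2 * a) := by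
  obtain ⟨t, ht⟩ : ∃ t, t = p / 2 := ⟨_, rfl⟩
  have hp : p = 2 * t := by rw [ht]; field_simp
  have hr : r = t * t := by
    have h4 : (4 : k) ≠ 0 := by norm_num
    apply mul_left_cancel₀ h4
    rw [← h, hp]
    ring
  rw [← ht, hp, hr]
  simp only [Polynomial.mul_comp, Polynomial.pow_comp, Polynomial.X_comp, Polynomial.add_comp,
    Polynomial.C_comp, Polynomial.C_mul, Polynomial.C_ofNat, Polynomial.ofNat_comp]
  have h5 : (Polynomial.X - Polynomial.C t) ^ 2 + 2 * Polynomial.C t *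
      (Polynomial.X - Polynomial.C t) + Polynomial.C t * Polynomial.C t =
      (Polynomial.X ^ 2 : Polynomial k) := by ring
  rw [pow_mul, ← h5, Nat.cast_ofNat]

end

theorem lt1 : S_LT1.{u} := by
  intro k _ _ F G a b c ha hb hc hB hF hG
  refine ⟨bl 2 (2 * a) F, bl 2 (2 * b) G, ?_, ?_, ?_⟩
  · have h := blow F G a b 2 (3 * (a + b) - 2) c hB hF hG (4 * a) (4 * b) (by push_cast; ring)
      (by push_cast; ring)
    have hx : (X 0 : MvPolynomial (Fin 2) k) ^ (2 * (a + b)) ≠ 0 := pow_ne_zero _ (X_ne_zero 0)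
    apply mul_left_cancel₀ hx
    rw [h]
    have h2 : 2 * (3 * (a + b) - 2) + 1 = 2 * (a + b) + (4 * (a + b) - 3) := by omega
    rw [h2, pow_add]
    push_cast
    ring
  · have := ev0_bl 2 (2 * a) F hF
    push_cast at this
    exact this
  · have := ev0_bl 2 (2 * b) G hG
    push_cast at this
    exact this

theorem lt2 : S_LT2.{u} := by
  intro k _ _ F G a b c ha hb hc hB hF hG
  have hF' : ∀ m, coeff m F ≠ 0 → 2 * a ≤ 1 * m 0 + m 1 := by
    intro m hm; have := hF m hm; omega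
  have hG' : ∀ m, coeff m G ≠ 0 → 2 * b ≤ 1 * m 0 + m 1 := by
    intro m hm; have := hG m hm; omega
  refine ⟨bl 1 (2 * a) F, bl 1 (2 * b) G, ?_, ?_, ?_⟩
  · have h := blow F G a b 1 (3 * (a + b) - 2) c hB hF' hG' a b (by push_cast; ring)
      (by push_cast; ring)
    have hx : (X 0 : MvPolynomial (Fin 2) k) ^ (2 * (a + b)) ≠ 0 := pow_ne_zero _ (X_ne_zero 0)
    apply mul_left_cancel₀ hx
    rw [h]
    have h2 : 1 * (3 * (a + b) - 2) + 1 = 2 * (a + b) + (a + b - 1) := by omega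
    rw [h2, pow_add]
    push_cast
    rw [one_mul]
    ring
  · have := ev0_bl 1 (2 * a) F hF'
    push_cast at this
    exact this
  · have := ev0_bl 1 (2 * b) G hG'
    push_cast at this
    exact this

theorem ltr : S_LTR.{u} := by
  intro k _ _ F G a b c κ κ' p r u v ha hb hc hB hu hv hF hG hp h1 h2
  refine ⟨aeval (tr (p / 2)) F, aeval (tr (p / 2)) G, ?_, ?_, ?_, tr_supp _ _ F hF,
    tr_supp _ _ G hG, ?_, ?_⟩
  · rw [BB_tr, hB]
    simp only [map_mul, map_pow, algHom_C, algebraMap_eq, aeval_X]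
    simp [tr]
  · rw [ev0_tr, hu]
  · rw [ev0_tr, hv]
  · rw [dh_tr, h1, comp_sq _ _ _ _ hp]
  · rw [dh_tr, h2, comp_sq _ _ _ _ hp]

end Pool.Agent.W119.J6
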